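import Pool.Agent.Lib_helper39.AQM.Defs
import Pool.Agent.Lib_helper39.AQM.AB
import Pool.Agent.Lib_helper39.MQX.ALG
import Pool.Agent.Lib_helper39.MQX.SBA
import Pool.Agent.Lib_helper39.MQX.SBB
import Pool.Agent.Lib_helper39.MQX.SBC
import Pool.Agent.Lib_helper39.MQX.LSV
import Pool.Agent.Lib_helper39.MQX.PAR
import Pool.Agent.Lib_helper39.MQX.FEJ
import Pool.Agent.Lib_helper39.MQX.EXP

/-!
# AQM: statements (sorry)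
-/

set_option autoImplicit false

namespace Pool.Agent.AQM

open Pool.Agent.MQ Pool.Agent.T2 Filter Topology MeasureTheory

section
variable {b c : ℤ} (A : Ang b c)

/-! ## block AL: elementary facts (`AB.rp_nm`, `AB.rp_eq`, `AB.rp_ml_rp`, `AB.rp_inj`, `AB.rp_gcd`,
`AB.rp_sm`, `AB.gg_rp`, `AB.u_ml`, `AB.mem_MF` are proved in AQM/AB.lean) -/

theorem mem_PS {q : ℕ} {V : El → Prop} {x : ℝ} {w : El} : w ∈ PS A q V x ↔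
    A.wd w ∧ (nm b c w : ℝ) ≤ x ∧ V w ∧ ∀ l : ℕ, l.Prime → dv l w → l ∣ q := sorry
theorem mem_PF {x : ℝ} {w : El} : w ∈ PF A x ↔ A.wd w ∧ (nm b c w : ℝ) ≤ x ∧ Pm w := sorry
theorem PS_sub {q q' : ℕ} {V V' : El → Prop} {x x' : ℝ}
    (hq : ∀ l : ℕ, l.Prime → l ∣ q → l ∣ q') (hV : ∀ w, V w → V' w) (hx : x ≤ x') :
    PS A q V x ⊆ PS A q' V' x' := sorry
theorem PS_card : ∃ C : ℝ, 1 ≤ C ∧ ∀ (q : ℕ) (V : El → Prop) (x : ℝ), 0 ≤ x →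
    ((PS A q V x).card : ℝ) ≤ C * x := sorry
theorem ex_norm (t : ℝ) : ‖ex t‖ = 1 := sorry
theorem ex_add (s t : ℝ) : ex (s + t) = ex s * ex t := sorry
theorem ex_int (n : ℤ) : ex (n : ℝ) = 1 := sorry
theorem ex_neg (t : ℝ) : ex (-t) = (starRingEnd ℂ) (ex t) := sorry
/-- the character is multiplicative (`u_ml`) -/
theorem ex_ml {v w : El} (hv : A.wd v) (hw : A.wd w) (k : ℤ) :
    ex (k * A.u (A.rp (ml b c v w))) = ex (k * A.u v) * ex (k * A.u w) := sorry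
theorem ex_sm {v : El} (hv : A.wd v) {n : ℕ} (hn : 1 ≤ n) (k : ℤ) :
    ex (k * A.u (sm n v)) = ex (k * A.u v) := sorry
theorem gg_norm {h : ℕ → ℤ} (hh : Sgn h) {v : El} (hv : nm b c v ≠ 0) :
    ‖(gg b c h v : ℂ)‖ = 1 := sorry

/-- at most two primitive elements of the window are parallel to `v` -/
theorem par_two {v : El} (hv : v ≠ 0) : ∃ s : Finset El, s.card ≤ 2 ∧
    ∀ w : El, A.wd w → Pm w → dt v w = 0 → w ∈ s := sorry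
/-- the primitive part in the window -/
theorem prim_part {v : El} (hv : A.wd v) : ∃ (n : ℕ) (z : El), 1 ≤ n ∧ A.wd z ∧ Pm z ∧
    v = sm n z := sorry

/-- elements of a class are primitive at the primes of `M` -/
theorem cls_prim {M : ℕ} {T : El → Prop} (hT : Cls A M T) {v : El} (hv : T v) {l : ℕ}
    (hl : l.Prime) (hlM : l ∣ M) : ¬ dv l v := sorry
theorem PS_T_prim {M : ℕ} {T : El → Prop} (hT : Cls A M T) {x : ℝ} {v : El}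
    (hv : v ∈ PS A M T x) : Pm v := sorry

/-! ### the ideals over the primes of a typed set -/

variable {M k₀ : ℕ} {B : Finset ℕ} {r : El} {π : ℕ → El}

theorem ndk (hB : TP A M B k₀ r π) {p : ℕ} (hp : p ∈ B) : ¬ p ∣ k₀ := sorry
theorem Dv_of_nm {p : ℕ} (hp : p.Prime) {π v : El} (hπ : (p : ℤ) ∣ nm b c π) (hπ0 : ¬ dv p π)
    (h : Dv p π v) : (p : ℤ) ∣ nm b c v := sorry
theorem Dv_self (p : ℕ) (v : El) : Dv p v v := sorry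
theorem Dv_not_dv (hB : TP A M B k₀ r π) {p : ℕ} (hp : p ∈ B) : ¬ dv p (π p) := sorry
theorem Dv_not_cj (hB : TP A M B k₀ r π) {p : ℕ} (hp : p ∈ B) :
    ¬ Dv p (cj b (π p)) (π p) := sorry
theorem Dv_cj {p : ℕ} {π v : El} : Dv p (cj b π) (cj b v) ↔ Dv p π v := sorry
theorem Dv_ml (hB : TP A M B k₀ r π) {p : ℕ} (hp : p ∈ B) (v w : El) :
    Dv p (π p) (ml b c v w) ↔ Dv p (π p) v ∨ Dv p (π p) w := sorry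
theorem Dv_ml' (hB : TP A M B k₀ r π) {p : ℕ} (hp : p ∈ B) (v w : El) :
    Dv p (cj b (π p)) (ml b c v w) ↔ Dv p (cj b (π p)) v ∨ Dv p (cj b (π p)) w := sorry
theorem Dv_dv (hB : TP A M B k₀ r π) {p : ℕ} (hp : p ∈ B) (v : El) :
    dv p v ↔ Dv p (π p) v ∧ Dv p (cj b (π p)) v := sorry
theorem Dv_nm (hB : TP A M B k₀ r π) {p : ℕ} (hp : p ∈ B) (v : El) :
    (p : ℤ) ∣ nm b c v ↔ Dv p (π p) v ∨ Dv p (cj b (π p)) v := sorry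
/-- the cofactor -/
theorem Dv_cof (hB : TP A M B k₀ r π) {p : ℕ} (hp : p ∈ B) {v : El} (h : Dv p (π p) v) :
    ∃ w : El, ml b c (cj b (π p)) v = sm p w ∧ ml b c (π p) w = sm k₀ v ∧
      (p : ℤ) * nm b c w = k₀ * nm b c v := sorry
theorem Dv_cof' (hB : TP A M B k₀ r π) {p : ℕ} (hp : p ∈ B) {v : El}
    (h : Dv p (cj b (π p)) v) : ∃ w : El, ml b c (π p) v = sm p w ∧
      ml b c (cj b (π p)) w = sm k₀ v ∧ (p : ℤ) * nm b c w = k₀ * nm b c v := sorry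

/-! ### the condition `QC` -/

theorem QC_per {M : ℕ} {T : El → Prop} (hT : Per M T) (k₀ : ℕ) (hk : 1 ≤ k₀) (r : El) :
    Per (M * k₀) (QC b c k₀ r T) := sorry
theorem QC_nonempty {T : El → Prop} (hT : Cls A M T) (hB : TP A M B k₀ r π)
    (hn : B.Nonempty) : ∃ w : El, QC b c k₀ r T w := sorry
theorem QC_rp {T : El → Prop} (hT : Cls A M T) {w : El} (hk : 1 ≤ k₀) (hr : 0 < nm b c r)
    (hw : 0 < nm b c w) : QC b c k₀ r T (A.rp w) ↔ QC b c k₀ r T w := sorry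
/-- the cofactor of `p` in an element of the class -/
theorem QC_cof {T : El → Prop} (hT : Cls A M T) (hB : TP A M B k₀ r π) {p : ℕ} (hp : p ∈ B)
    {z w : El} (hz : T z) (h : ml b c (π p) w = sm k₀ z) : QC b c k₀ r T w := sorry
/-- and conversely -/
theorem QC_mul {T : El → Prop} (hT : Cls A M T) (hB : TP A M B k₀ r π) {p : ℕ} (hp : p ∈ B)
    {w : El} (h : QC b c k₀ r T w) : ∃ z : El, ml b c (π p) w = sm k₀ z ∧ T z := sorry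

end

/-! ## block MO: Moebius inversion over the content (template T2F/MOE.lean) -/

open Classical in
theorem PS_moebius {b c : ℤ} (A : Ang b c) {q : ℕ} (hq : 1 ≤ q) (V : El → Prop) (F : El → ℂ)
    (x : ℝ) (D : ℕ) (hD : x < ((D : ℝ) + 1) ^ 2) :
    ∑ w ∈ PS A q V x, F w = ∑ e ∈ (Finset.Icc 1 D).filter (fun e => Nat.Coprime e q),
      (ArithmeticFunction.moebius e : ℂ) *
        ∑ w ∈ (A.MF (x / (e : ℝ) ^ 2)).filter (fun w => V (sm e w)), F (sm e w) := sorry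

/-! ## block CN1: lattice points in a quadrant -/

open Classical in
/-- the region `A s² + B s t + C t² ≤ x` of the quadrant is monotone: for fixed `t` the `s` form an
interval `1 ≤ s ≤ s_max(t)`, `s_max` is antitone and `≤ √x`. For fixed `t` the conditions modulo `q`, `d`
on `s` are one residue class modulo `q d / g` if `g = gcd (d, α)` divides `t`, otherwise there is no
solution: `s_max(t) g / (q d) + O(1)`; then compare the sum over the `t ≡ t₀ (q)`, `g ∣ t` with the integral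
(`AntitoneOn.sum_le_integral`). `κ` is the area for `x = 1`. -/
theorem quad_count (A B C : ℤ) (hA : 0 < A) (hB : 0 < B) (hC : 0 < C) : ∃ κ : ℝ, 0 < κ ∧
    ∀ q : ℕ, 1 ≤ q → ∃ K : ℝ, 1 ≤ K ∧ ∀ (s₀ t₀ α β : ℤ) (d : ℕ), 1 ≤ d → Nat.Coprime d q →
    (∀ l : ℕ, l.Prime → l ∣ d → ¬ ((l : ℤ) ∣ α ∧ (l : ℤ) ∣ β)) → ∀ x : ℝ, 1 ≤ x →
    |((((Finset.Icc 1 ⌊Real.sqrt x⌋₊) ×ˢ (Finset.Icc 0 ⌊Real.sqrt x⌋₊)).filter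
      (fun z : ℕ × ℕ => (A : ℝ) * z.1 ^ 2 + B * z.1 * z.2 + C * z.2 ^ 2 ≤ x ∧
        (q : ℤ) ∣ z.1 - s₀ ∧ (q : ℤ) ∣ z.2 - t₀ ∧ (d : ℤ) ∣ z.1 * α + z.2 * β)).card : ℝ) -
      κ * x / ((q : ℝ) ^ 2 * d)| ≤ K * Real.sqrt x := sorry

/-! ## block CN2: lattice points in the window, residue classes and lines -/

open Classical in
/-- Sum of `quad_count` over the cones `cn S.e i s t`, `1 ≤ s`, `i < S.r` (disjoint, `S.e_wd`, `u_cone`,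
`u_ends`): `nm (cn e i s t) = A s² + B s t + C t²` with `A = nm (e i)`, `C = nm (e (i+1))`, `B > 0` by
`e_ac`; the change of coordinates is unimodular (`e_det`), `α = dt (e i) r`, `β = dt (e (i+1)) r`. -/
theorem cls_count {b c : ℤ} (S : Sys b c) : ∃ κ : ℝ, 0 < κ ∧ ∀ q : ℕ, 1 ≤ q → ∃ C : ℝ, 1 ≤ C ∧
    ∀ (v₀ r : El) (d : ℕ), 1 ≤ d → Nat.Coprime d q → (∀ l : ℕ, l.Prime → l ∣ d → ¬ dv l r) →
    ∀ x : ℝ, 1 ≤ x → |(((S.MF x).filter (fun w => dv q (w - v₀) ∧ (d : ℤ) ∣ dt w r)).card : ℝ) -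
      κ * x / ((q : ℝ) ^ 2 * d)| ≤ C * Real.sqrt x := sorry

/-! ## block CP: the same for `PS` (template T2F/PCT.lean) -/

open Classical in
/-- `a = κ #(V mod q) / q² * ∏_{l ∤ q} (1 - l^(-2))`: `PS_moebius`, `V (sm e w)` has as many classes as
`V`, and `d ∣ dt (sm e w) r` iff `d / gcd (d, e) ∣ dt w r`. -/
theorem PS_count {b c : ℤ} (A : Ang b c) (q : ℕ) (hq : 1 ≤ q) : ∃ C : ℝ, 1 ≤ C ∧
    ∀ V : El → Prop, Per q V → ∃ a : ℝ, 0 ≤ a ∧ a ≤ C ∧ ((∃ v, V v) → 1 / C ≤ a) ∧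
    ∀ (r : El) (d : ℕ), Squarefree d → Nat.Coprime d q → (∀ l : ℕ, l.Prime → l ∣ d → ¬ dv l r) →
    ∀ x : ℝ, 1 ≤ x → |(((PS A q V x).filter (fun w => (d : ℤ) ∣ dt w r)).card : ℝ) -
      a * x / ∏ l ∈ d.primeFactors, ((l : ℝ) + 1)| ≤
        C * d.divisors.card * Real.sqrt x * (1 + Real.log x) := sorry
theorem PS_low {b c : ℤ} (A : Ang b c) (q : ℕ) (hq : 1 ≤ q) : ∃ C X₀ : ℝ, 1 ≤ C ∧
    ∀ V : El → Prop, Per q V → (∃ v, V v) → ∀ x : ℝ, X₀ ≤ x →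
      x / C ≤ ((PS A q V x).card : ℝ) := sorry

/-! ## block LS: the large sieve (template T2F/LSG.lean; MQ.large_sieve, `A.sep`) -/

theorem lsieve {b c : ℤ} (A : Ang b c) : ∃ C : ℝ, 1 ≤ C ∧ ∀ K x : ℝ, 0 ≤ K → 1 ≤ x →
    (∀ a : El → ℂ, ∑ k ∈ Ks K, ‖∑ z ∈ PF A x, a z * ex (k * A.u z)‖ ^ 2 ≤
      C * (K + x) * ∑ z ∈ PF A x, ‖a z‖ ^ 2) ∧
    (∀ a : ℤ → ℂ, ∑ z ∈ PF A x, ‖∑ k ∈ Ks K, a k * ex (k * A.u z)‖ ^ 2 ≤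
      C * (K + x) * ∑ k ∈ Ks K, ‖a k‖ ^ 2) := sorry

/-! ## block MM1: parallel products of prime elements (template T2F/MOM.lean, `momD_le`) -/

/-- Write `U ∥ V` for `dt U V = 0`. As in MOM: the number of pairs `((p_i), w), ((q_j), w')` with
`∏ π p_i * w ∥ ∏ π q_j * w'`, `w`, `w'` divisible only by primes of `M`, `nm w ≤ x`, `nm w' ≤ x'`, is
at most `C √(x x') (C √P)^(l + l') l'!`. Base case: parallel pairs `w = sm j z`, `w' = sm j' z`, `j`,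
`j'` composed of primes of `M`: `C √(x x') (∑_j 1/j)²`. Trichotomy `mom_cases` with `Dv_ml`; the
cofactors `Dv_cof`, `Dv_cof'` have norm `≤ k₀ x / p` and are again divisible only by primes of `M`
(take representatives `A.rp`; `dt (ml u v) (ml u w) = nm u * dt v w`). -/
theorem par_count {b c : ℤ} (A : Ang b c) (M : ℕ) (hM : 1 ≤ M) : ∃ C : ℝ, 1 ≤ C ∧
    ∀ (P : ℝ) (B : Finset ℕ) (k₀ : ℕ) (r : El) (π : ℕ → El), TP A M B k₀ r π → 1 ≤ P →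
    (∀ p ∈ B, P < (p : ℝ) ∧ (p : ℝ) ≤ 2 * P) → ∀ (l l' : ℕ) (x x' : ℝ), 0 ≤ x → 0 ≤ x' →
      ((ParD A M B π l l' x x').card : ℝ) ≤
        C * Real.sqrt (x * x') * (C * Real.sqrt P) ^ (l + l') * l'.factorial := sorry

/-! ## block MM2: the moment inequality (template T2F/MOM.lean) -/

/-- Expand the power (`ex_ml`; `pr` is in the window up to `A.rp`), group by the primitive part
(`prim_part`), `lsieve` and `par_count` with `l = l'`, `x = x'`. -/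
theorem moment {b c : ℤ} (A : Ang b c) (M : ℕ) (hM : 1 ≤ M) : ∃ C : ℝ, 1 ≤ C ∧
    ∀ (K x P : ℝ) (B : Finset ℕ) (k₀ : ℕ) (r : El) (π : ℕ → El) (β : ℕ → ℂ) (a : El → ℂ) (l : ℕ),
    TP A M B k₀ r π → 0 ≤ K → 1 ≤ x → 1 ≤ P → (∀ p ∈ B, P < (p : ℝ) ∧ (p : ℝ) ≤ 2 * P) →
    (∀ p, ‖β p‖ ≤ 1) → (∀ z, ‖a z‖ ≤ 1) →
      ∑ k ∈ Ks K, ‖(∑ p ∈ B, β p * ex (k * A.u (π p))) ^ l *
        ∑ z ∈ PS A M (fun _ => True) x, a z * ex (k * A.u z)‖ ^ 2 ≤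
        C * (K + x * (2 * P) ^ l) * (x * (2 * P) ^ l) * C ^ l * l.factorial := sorry

section
variable {b c : ℤ} (A : Ang b c) (hs : ¬ IsSquare (dsc b c)) {M : ℕ} {T : El → Prop}
include hs

/-! ## block TV: Turan and Kubilius (template T2F/TKV.lean, tka_pi of T2F/TKA.lean) -/

/-- `PS_count` with `d = 1`, `d = p` (`r = π p`) and `d = p q` (`r = π p` modulo `p`, `= π q` modulo
`q`); the errors: `(#B)² √x (1 + log x) ≤ C x / log x` since `#B ≤ π(x^(1/4))`. -/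
theorem tk_var (hT : Cls A M T) : ∃ C : ℝ, 1 ≤ C ∧ ∀ (x : ℝ) (B : Finset ℕ) (k₀ : ℕ) (r : El)
    (π : ℕ → El), TP A M B k₀ r π → 1 ≤ x → (∀ p ∈ B, (p : ℝ) ≤ x ^ (1 / 4 : ℝ)) → 1 ≤ rs B →
      ∑ z ∈ PS A M T x, (omB π B z - rs B) ^ 2 ≤ C * x * rs B := sorry

/-! ## block TA: an annulus; a second moment of prime counts (template T2F/TKA.lean) -/

open Classical in
/-- `z ↦` cofactor is injective, `MF` in the annulus `(y, ρ y]` has at most `C ((ρ-1) y + √y)`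
elements (`cls_count`, `q = d = 1`), `y = k₀ x / p` resp. `k₀² x / (p q)`. -/
theorem tk_ann (hT : Cls A M T) : ∃ C : ℝ, 1 ≤ C ∧ ∀ (x ρ : ℝ) (B : Finset ℕ) (k₀ : ℕ) (r : El)
    (π : ℕ → El), TP A M B k₀ r π → 1 ≤ x → 1 < ρ → ρ ≤ 2 → x ^ (-(1 / 16) : ℝ) ≤ ρ - 1 →
    (∀ p ∈ B, (p : ℝ) ≤ x ^ (1 / 4 : ℝ)) →
      ∑ z ∈ (PS A M T (ρ * x)).filter (fun z => x < (nm b c z : ℝ)), omB π B z ^ 2 ≤
        C * (ρ - 1) * x * (rs B + 1) ^ 2 := sorry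
omit hs in
open Classical in
theorem tk_cop : ∃ C : ℝ, 1 ≤ C ∧ ∀ x P : ℝ, 1 ≤ x → 2 ≤ P →
    ∑ w ∈ PF A (2 * x), (((Finset.range (⌊x⌋₊ + 1)).filter (fun p : ℕ => p.Prime ∧ P < (p : ℝ) ∧
      (p : ℝ) ^ 2 * nm b c w ≤ 2 * x)).card : ℝ) ^ 2 ≤ C * x / Real.log P := sorry

/-! ## block TR1: one prime (template MRGF/T1.lean, `t1_prime`) -/

open Classical in
/-- `w ∈ PS A (M k₀) (QC ..) (k₀ Y / ρ^v)`: if not `Dv p (cj b (π p)) w` then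
`A.rp (ml b c (π p) w) = sm k₀ z`, `z ∈ PS A M T (2 Y)` with `Dv p (π p) z` (bijection, `Dv_cof`,
`QC_cof`, `QC_mul`), norm `≤ Y` or in `(Y, ρ Y]`; if `Dv p (cj b (π p)) w` then
`w = A.rp (ml b c (cj b (π p)) z)` with `z` primitive, `p nm z ρ^v ≤ Y`, and the term is
`gg z ex (k u z)`. -/
theorem rep_prime (hT : Cls A M T) {h : ℕ → ℤ} (hh : Sgn h) {B : Finset ℕ} {k₀ : ℕ} {r : El}
    {π : ℕ → El} (hB : TP A M B k₀ r π) (k : ℤ) {Y ρ : ℝ} {p v : ℕ} (hp : p ∈ B) (hY : 1 ≤ Y)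
    (hρ : 1 < ρ) (hρ2 : ρ ≤ 2) (hv1 : ρ ^ v < (p : ℝ)) (hv2 : (p : ℝ) ≤ ρ ^ (v + 1)) :
    (gg b c h (π p) : ℂ) * ex (k * A.u (π p)) *
        Sv A h (M * k₀) (QC b c k₀ r T) k (k₀ * Y / ρ ^ v) =
      ∑ z ∈ (PF A (2 * Y)).filter (fun z => QC b c k₀ r T (ml b c (cj b (π p)) z) ∧
          (∀ l : ℕ, l.Prime → dv l (ml b c (cj b (π p)) z) → l ∣ M * k₀) ∧
          (p : ℝ) * nm b c z * ρ ^ v ≤ Y), (gg b c h z : ℂ) * ex (k * A.u z)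
      + ∑ z ∈ (PF A (2 * Y)).filter (fun z => T z ∧ Dv p (π p) z ∧ Y < (nm b c z : ℝ) ∧
          (nm b c z : ℝ) * ρ ^ v ≤ p * Y), (gg b c h z : ℂ) * ex (k * A.u z)
      + ∑ z ∈ (PF A Y).filter (fun z => T z ∧ Dv p (π p) z),
          (gg b c h z : ℂ) * ex (k * A.u z) := sorry

/-! ## block TR2: the representation (template MRGF/T1.lean) -/

/-- `rep_prime`, `tk_var`, `tk_ann`, `tk_cop`; `tkr_block`, `tkr_three` of T2F/TKR.lean. -/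
theorem tk_rep (hT : Cls A M T) : ∃ C : ℝ, 1 ≤ C ∧ ∀ h : ℕ → ℤ, Sgn h → ∀ (Y ρ P : ℝ)
    (B : Finset ℕ) (V : ℕ) (k₀ : ℕ) (r : El) (π : ℕ → El), TP A M B k₀ r π →
    1 ≤ Y → 1 < ρ → ρ ≤ 2 → Y ^ (-(1 / 16) : ℝ) ≤ ρ - 1 → 2 ≤ P →
    (∀ p ∈ B, P < (p : ℝ) ∧ (p : ℝ) ≤ Y ^ (1 / 4 : ℝ) ∧ (p : ℝ) ≤ ρ ^ V) → 1 ≤ rs B →
    ∃ a : El → ℂ, ∑ z ∈ PF A (2 * Y), ‖a z‖ ^ 2 ≤
        C * Y * (1 / rs B + (ρ - 1) + 1 / (rs B ^ 2 * Real.log P)) ∧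
      ∀ k : ℤ, Sv A h M T k Y - (1 / (rs B : ℂ)) * ∑ v ∈ Finset.range V,
        Qv A h π k (blk ρ v B) * Sv A h (M * k₀) (QC b c k₀ r T) k (k₀ * Y / ρ ^ v) =
          ∑ z ∈ PF A (2 * Y), a z * ex (k * A.u z) := sorry

/-! ## block L1 (template MRGF/L1.lean) -/

theorem level_one (hT : Cls A M T) : ∃ C : ℝ, 1 ≤ C ∧ ∀ h : ℕ → ℤ, Sgn h →
    ∀ (Y H ρ P Q α : ℝ) (B : Finset ℕ) (V : ℕ) (U : Finset ℤ) (k₀ : ℕ) (r : El) (π : ℕ → El),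
    TP A M B k₀ r π → 1 ≤ Y → 1 < ρ → ρ ≤ 2 → 0 < α → α ≤ 1 / 4 → 2 ≤ P → Q ≤ H → H ≤ Y →
    (∀ p ∈ B, P < (p : ℝ) ∧ (p : ℝ) ≤ Q ∧ (p : ℝ) ≤ ρ ^ V) → U ⊆ Ks (Y / H) →
    (∀ k ∈ U, ∀ v < V, ‖Qv A h π k (blk ρ v B)‖ ≤ (ρ ^ v) ^ (1 - α)) →
      ∑ k ∈ U, ‖∑ v ∈ Finset.range V, Qv A h π k (blk ρ v B) *
          Sv A h (M * k₀) (QC b c k₀ r T) k (k₀ * Y / ρ ^ v)‖ ^ 2 ≤
        C * Y ^ 2 * (P ^ (-α) / (α * (ρ - 1))) ^ 2 := sorry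

/-! ## block L2 (template MRGF/L2.lean) -/

theorem level_step (hT : Cls A M T) : ∃ C : ℝ, 1 ≤ C ∧ ∀ h : ℕ → ℤ, Sgn h →
    ∀ (Y K R R' α α' : ℝ) (B B' : Finset ℕ) (l : ℕ) (U : Finset ℤ) (k₀ k₀' : ℕ) (r r' : El)
    (π π' : ℕ → El), TP A M B k₀ r π → TP A M B' k₀' r' π' → 1 ≤ R → R ≤ Y → 1 ≤ R' → 0 ≤ K →
    K ≤ Y → 0 < α' → α' ≤ α → α ≤ 1 / 4 → (∀ p ∈ B', R' < (p : ℝ) ∧ (p : ℝ) ≤ 2 * R') →
    R ≤ R' ^ l → R' ^ l ≤ R * R' → U ⊆ Ks K → (∀ k ∈ U, ‖Qv A h π k B‖ ≤ R ^ (1 - α)) →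
    (∀ k ∈ U, R' ^ (1 - α') ≤ ‖Qv A h π' k B'‖) →
      ∑ k ∈ U, ‖Qv A h π k B * Sv A h (M * k₀) (QC b c k₀ r T) k (k₀ * Y / R)‖ ^ 2 ≤
        C * Y ^ 2 * R ^ (-(2 * (α - α'))) * R' ^ (2 * α') * C ^ l * l.factorial := sorry

/-! ## block L3 (template MRGF/L3.lean) -/

omit hs in
open Classical in
theorem few_large (hM : 1 ≤ M) : ∃ C : ℝ, 1 ≤ C ∧ ∀ h : ℕ → ℤ, Sgn h →
    ∀ (X P α : ℝ) (B : Finset ℕ) (l : ℕ) (k₀ : ℕ) (r : El) (π : ℕ → El), TP A M B k₀ r π →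
    1 ≤ X → 1 ≤ P → 0 < α → α ≤ 1 / 4 → (∀ p ∈ B, P < (p : ℝ) ∧ (p : ℝ) ≤ 2 * P) →
    X ≤ P ^ l → P ^ l ≤ X * P →
      (((Ks X).filter (fun k => P ^ (1 - α) < ‖Qv A h π k B‖)).card : ℝ) ≤
        C * (X * P) ^ (2 * α) * C ^ l * l.factorial := sorry

end

/-! ## block TY: typed sets -/

/-- Thue's lemma as in MQX/PRM.lean: `π p` in the window, `nm (π p) = k p`, `1 ≤ k ≤ K₀`;
`M₀ = K₀! |D|`, pigeonhole on `k` and on `π p` modulo `M k`. -/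
theorem good_exists {b c : ℤ} (hs : ¬ IsSquare (dsc b c)) : ∃ M₀ : ℕ, 1 ≤ M₀ ∧
    ∀ M : ℕ, 1 ≤ M → M₀ ∣ M → ∀ A : Ang b c, GoodM A M := sorry

/-! ## block ME: sums over typed sets (template T2F/MER.lean; pnt_residueClass) -/

theorem typed_mer {b c : ℤ} {A : Ang b c} {M : ℕ} (hM : GoodM A M) : ∃ c₁ C : ℝ, 0 < c₁ ∧
    1 ≤ C ∧ ∀ P Q : ℝ, 2 ≤ P → P ≤ Q → ∃ (B : Finset ℕ) (k₀ : ℕ) (r : El) (π : ℕ → El),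
    TP A M B k₀ r π ∧ (∀ p ∈ B, P < (p : ℝ) ∧ (p : ℝ) ≤ Q) ∧
      c₁ * Real.log (Real.log Q / Real.log P) - C ≤ rs B := sorry
theorem typed_block {b c : ℤ} {A : Ang b c} {M : ℕ} (hM : GoodM A M) : ∃ c₁ P₀ : ℝ, 0 < c₁ ∧
    ∀ P : ℝ, P₀ ≤ P → ∃ (B : Finset ℕ) (k₀ : ℕ) (r : El) (π : ℕ → El), TP A M B k₀ r π ∧
      (∀ p ∈ B, P < (p : ℝ) ∧ (p : ℝ) ≤ 2 * P) ∧ c₁ * (P / Real.log P) ≤ (B.card : ℝ) := sorry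

/-! ## blocks L4A, L4C, L4D, L4E: typical frequencies (template MRGF/L4.lean) -/

section
variable {b c : ℤ} (A : Ang b c) (hs : ¬ IsSquare (dsc b c)) {M : ℕ} {T : El → Prop}

include hs in
/-- L4A: template `l4_A` -/
theorem l4_A (hT : Cls A M T) : ∃ C : ℝ, 1 ≤ C ∧ ∀ h : ℕ → ℤ, Sgn h → ∀ (Y ρ P : ℝ)
    (B : Finset ℕ) (V : ℕ) (k₀ : ℕ) (r : El) (π : ℕ → El) (U : Finset ℤ), TP A M B k₀ r π →
    1 ≤ Y → 1 < ρ → ρ ≤ 2 → Y ^ (-(1 / 16) : ℝ) ≤ ρ - 1 → 2 ≤ P →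
    (∀ p ∈ B, P < (p : ℝ) ∧ (p : ℝ) ≤ Y ^ (1 / 4 : ℝ) ∧ (p : ℝ) ≤ ρ ^ V) → 1 ≤ rs B →
    U ⊆ Ks Y → ∑ k ∈ U, ‖Sv A h M T k Y‖ ^ 2 ≤ C * Y ^ 2 * (1 / rs B + (ρ - 1)) +
      2 * ∑ k ∈ U, ‖∑ v ∈ Finset.range V, Qv A h π k (blk ρ v B) *
        Sv A h (M * k₀) (QC b c k₀ r T) k (k₀ * Y / ρ ^ v)‖ ^ 2 := sorry

include hs in
/-- L4C: template `l4_C` -/
theorem l4_C (hT : Cls A M T) : ∃ C : ℝ, 1 ≤ C ∧ ∀ h : ℕ → ℤ, Sgn h →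
    ∀ (Y K E ρ ρ' a a' : ℝ) (B B' : Finset ℕ) (V V' : ℕ) (U : Finset ℤ) (k₀ k₀' : ℕ) (r r' : El)
    (π π' : ℕ → El), TP A M B k₀ r π → TP A M B' k₀' r' π' →
    C ≤ E → 0 ≤ K → K ≤ Y → Real.exp (E ^ 8) ≤ Y →
    1 < ρ → ρ ≤ 2 → 1 < ρ' → ρ' ≤ 2 → 0 < a' → a' ≤ a → a ≤ 1 / 4 →
    (∀ p ∈ B, Real.exp (E ^ 4) < (p : ℝ) ∧ (p : ℝ) ≤ Real.exp (E ^ 8)) →
    (∀ p ∈ B', Real.exp E < (p : ℝ) ∧ (p : ℝ) ≤ Real.exp (E ^ 2)) →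
    64 * Real.log E ≤ (a - a') * E → 4 ≤ (a - a') * E ^ 2 → U ⊆ Ks K →
    (∀ k ∈ U, ∀ v < V, ‖Qv A h π k (blk ρ v B)‖ ≤ (ρ ^ v) ^ (1 - a)) →
    (∀ k ∈ U, ∃ u < V', (ρ' ^ u) ^ (1 - a') < ‖Qv A h π' k (blk ρ' u B')‖) →
      ∑ k ∈ U, ‖∑ v ∈ Finset.range V, Qv A h π k (blk ρ v B) *
          Sv A h (M * k₀) (QC b c k₀ r T) k (k₀ * Y / ρ ^ v)‖ ^ 2 ≤
        C * Y ^ 2 * ((V : ℝ) ^ 2 * V') * Real.exp (-E ^ 2) := sorry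

open Classical in
/-- L4D: template `l4_D` -/
theorem l4_D (hM : 1 ≤ M) (α : ℝ) (hα : 0 < α) : ∃ F₀ : ℝ, 1 ≤ F₀ ∧ ∀ h : ℕ → ℤ, Sgn h →
    ∀ (X F ρ a : ℝ) (B : Finset ℕ) (V : ℕ) (k₀ : ℕ) (r : El) (π : ℕ → El), TP A M B k₀ r π →
    F₀ ≤ F → 1 ≤ X → F ^ 4 ≤ Real.log X → Real.log X ≤ F ^ 16 → 1 < ρ → ρ ≤ 2 → 0 < a →
    a ≤ α / 4 → a ≤ 1 / 4 →
    (∀ p ∈ B, Real.exp F < (p : ℝ) ∧ (p : ℝ) ≤ Real.exp (F ^ 2)) → (V : ℝ) ≤ F ^ 4 →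
    (((Ks X).filter (fun k => ∃ u < V, (ρ ^ u) ^ (1 - a) < ‖Qv A h π k (blk ρ u B)‖)).card : ℝ) ≤
      X ^ α := sorry

end

/-- L4E: template `l4_sec0`, `l4_secS`, `l4_lvl`, at the single scale `Y = X` (`δ = 1`). The sets `levB L j`
are replaced by typed subsets (`typed_mer` with `P = exp F`, `Q = exp (F²)`, `F = levF L j`,
`log (log Q / log P) = log F = 4^j log L`; then as in `l4_rs` with `c₁ log L ≥ κ + C`). `l4_Y`, `l4_err`,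
`l4_num0`, `l4_gap`, `l4_numS`, `l4_par` of MRGF/L4.lean and the `lev_` lemmas of T2F/LEV.lean may be
cited. -/
theorem l4_lvl {b c : ℤ} (A : Ang b c) (hs : ¬ IsSquare (dsc b c)) {M : ℕ} {T : El → Prop}
    (hT : Cls A M T) (hM : GoodM A M) (α ε F₀ : ℝ) (hα : 0 < α) (hα1 : α ≤ 1) (hε : 0 < ε) :
    ∃ c' L : ℝ, 0 < c' ∧ c' ≤ 1 ∧ 1 ≤ Real.log L ∧ 2 ≤ L ∧ F₀ ≤ L ∧
    (∀ j, (levV L c' j : ℝ) ≤ levF L j ^ 4) ∧ ∃ (B : ℕ → Finset ℕ) (k₀ : ℕ → ℕ) (r : ℕ → El)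
    (π : ℕ → ℕ → El), LevT A M L B k₀ r π ∧
    ∀ h : ℕ → ℤ, Sgn h → ∀ (X : ℝ) (j : ℕ) (U : Finset ℤ), 1 ≤ X →
      levF L j ^ 4 ≤ Real.log X → U ⊆ Ks (X / Real.exp (L ^ 2)) →
      (∀ k ∈ U, ¬ l4Bad A h B π L c' α j k) → (∀ k ∈ U, ∀ i < j, l4Bad A h B π L c' α i k) →
        ∑ k ∈ U, ‖Sv A h M T k X‖ ^ 2 ≤ ε / 2 * (1 / 4) ^ j * X ^ 2 := sorry

/-- L4F: template `mr_typical_g_pr` (`l4_lvl`, `l4_D`) -/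
theorem mr_typical {b c : ℤ} (A : Ang b c) (hs : ¬ IsSquare (dsc b c)) {M : ℕ} {T : El → Prop}
    (hT : Cls A M T) (hM : GoodM A M) (α ε : ℝ) (hα : 0 < α) (hα1 : α ≤ 1) (hε : 0 < ε) :
    ∃ H X₀ : ℝ, 1 ≤ H ∧ ∀ X : ℝ, X₀ ≤ X → ∀ h : ℕ → ℤ, Sgn h → ∃ U : Finset ℤ, U ⊆ Ks X ∧
      (U.card : ℝ) ≤ X ^ α ∧ ∑ k ∈ Ks (X / H) \ U, ‖Sv A h M T k X‖ ^ 2 ≤ ε * X ^ 2 := sorry

/-! ## block EC1: the shifted lines (template MQX/EXP.lean, `med`, `large`) -/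

section
open Pool.Agent.Lib_helper44.EXP

variable {b c : ℤ}

theorem med_shift (Y : Sys b c) {c0 : ℝ} (h0 : 0 < c0)
    (hc0 : ∀ t : ℝ, (dsc b c < 0 ∨ Y.lam ≤ t) → c0 * (1 + t ^ 2) ≤ t ^ 2 + b * t + c)
    {q k y : ℝ} (hq : 1 ≤ q) (hk : q ^ 21 ≤ |k|) (hk2 : |k| * (2 * Cst Y c0) ≤ q ^ 495)
    (hy : q ^ 495 ≤ y) {θ : ℝ} {a b' : ℤ} (hab : ∀ x : ℝ, (a : ℝ) ≤ x → x ≤ b' - 1 →
      (dsc b c < 0 ∨ Y.lam < (x + θ) / y) ∧ nr b c (x + θ) y ≤ q ^ 1000) :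
    ‖S (fun n => k * Y.ur ((n + θ) / y)) a b'‖ ≤ ((2 * (1 + 1 / c0) + 1) + 1 / Y.κ +
      (2 * (1 + 1 / c0) + 1) * Cst Y c0 / Y.κ ^ 2) * q ^ 499 := sorry

theorem large_shift (Y : Sys b c) {c0 : ℝ} (h0 : 0 < c0)
    (hc0 : ∀ t : ℝ, (dsc b c < 0 ∨ Y.lam ≤ t) → c0 * (1 + t ^ 2) ≤ t ^ 2 + b * t + c) :
    ∃ C : ℝ, 0 ≤ C ∧ ∀ q k y : ℝ, 1 ≤ q → 2 * Cst Y c0 ≤ q → q ^ 495 ≤ 2 * Cst Y c0 * |k| →
    |k| ≤ q ^ 3000 → q ^ 495 ≤ y → ∀ (θ : ℝ) (a b' : ℤ), (∀ x : ℝ, (a : ℝ) ≤ x → x ≤ b' - 1 →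
      (dsc b c < 0 ∨ Y.lam < (x + θ) / y) ∧ nr b c (x + θ) y ≤ q ^ 1000) →
    ‖S (fun n => k * Y.ur ((n + θ) / y)) a b'‖ ≤ C * q ^ 499 := sorry

/-! ## block EC2: small frequencies (template MQX/EXP.lean, `small`) -/

open Classical in
/-- row `y`: `∑ = (y / q) ∫_{Ty} ee (ξ ur) + O(|ξ| + 1)` (`int_sum` for `y / q` and the translated set); the
sum of the `y ≤ √w`, `y ≡ y₀ (q)`, is `w / (2 q) + O(√w)`. Hence `Z = X / (2 q²) ∫_W ee (ξ ur) / ff`, which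
vanishes for integers `ξ ≠ 0` (`area_zero`). -/
theorem small_class (Y : Sys b c) {c0 : ℝ} (h0 : 0 < c0)
    (hc0 : ∀ t : ℝ, (dsc b c < 0 ∨ Y.lam ≤ t) → c0 * (1 + t ^ 2) ≤ t ^ 2 + b * t + c) (q : ℕ)
    (hq : 1 ≤ q) : ∃ C : ℝ, 0 ≤ C ∧ ∀ X : ℝ, 1 ≤ X → ∀ ξ : ℝ, ∃ Z : ℂ,
    ((∃ n : ℤ, n ≠ 0 ∧ ξ = n) → Z = 0) ∧ ∀ v₀ : El,
    ‖∑ y ∈ (Finset.Icc 1 ⌊Real.sqrt (X / c0)⌋₊).filter (fun y : ℕ => (q : ℤ) ∣ (y : ℤ) - v₀.2),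
      ∑ x ∈ (Fy Y X y).filter (fun x => (q : ℤ) ∣ x - v₀.1), ee (ξ * Y.ur (x / y)) - Z‖ ≤
      C * Real.sqrt X * (|ξ| + 1) + C * X ^ (3 / 4 : ℝ) := sorry

end

/-! ## block EC3: character sums over residue classes (template MQX/EXP.lean, `decomp`, `line`,
`total`, `exp_sum_pr`) -/

open Classical in
/-- Row `y`: `x = x₀ + q n`, phase `ξ ur ((n + x₀ / q) / (y / q))`; `Z = 0` for `|ξ| > X^(21/1000)`. Take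
`κ = 1 / 3000`, say. -/
theorem exp_real : ∃ κ : ℝ, 0 < κ ∧ κ ≤ 1 ∧ ∀ (b c : ℤ) (S : Sys b c) (q : ℕ), 1 ≤ q →
    ∃ X₀ : ℝ, ∀ X : ℝ, X₀ ≤ X → ∀ ξ : ℝ, |ξ| ≤ X ^ 3 → ∃ Z : ℂ,
    ((∃ n : ℤ, n ≠ 0 ∧ ξ = n) → Z = 0) ∧ ∀ v₀ : El,
      ‖∑ v ∈ (S.MF X).filter (fun v => dv q (v - v₀)), ex (ξ * S.u v) - Z‖ ≤ X ^ (1 - κ) := sorry

/-! ## block AS: the angular system of a window (`cls_count`, `exp_real`, MQX/SBA, SBC) -/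

theorem ang_sys {b c : ℤ} (S : Sys b c) : ∃ A : Ang b c, A.S = S ∧ A.mu = 1 ∧
    (∀ v, A.wd v ↔ S.wd v) ∧ (∀ v, A.rp v = S.rp v) ∧ ∀ v, A.u v = S.u v := sorry

/-! ## block AF: the full plane -/

/-- the sum of the arguments. Symmetry `ur (-b - t) = 1 - ur t` (derivative, limits); the second
coordinate of `(x, y) (s, t)` is `y t (x / y + s / t + b)`. -/
theorem u_plane {b c : ℤ} (S : Sys b c) (hd : dsc b c < 0) {v w : El} (hv : S.wd v)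
    (hw : S.wd w) : (S.u v + S.u w < 1 → S.wd (ml b c v w) ∧ S.u (ml b c v w) = S.u v + S.u w) ∧
      (1 ≤ S.u v + S.u w → S.wd (-ml b c v w) ∧ S.u (-ml b c v w) = S.u v + S.u w - 1) := sorry

/-- `A.u v = S.u v / 2` for `v` in the window, `(S.u (-v) + 1) / 2` otherwise; `cls_count` and `exp_real`
(`ξ = k / 2`) for `v₀` and `-v₀`. -/
theorem ang_full {b c : ℤ} (S : Sys b c) (hd : dsc b c < 0) : ∃ A : Ang b c, A.S = S ∧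
    A.mu = 2 ∧ (∀ v, A.wd v ↔ v ≠ 0) ∧ (∀ v, A.rp v = v) ∧
    (∀ v, S.wd v → A.u v = S.u v / 2) ∧ ∀ v, S.wd (-v) → A.u v = (S.u (-v) + 1) / 2 := sorry

/-! ## block EP: the same for `PS` (`PS_moebius`; `e ≤ X^(1/6)`, the rest trivially) -/

theorem exp_PS {b c : ℤ} (A : Ang b c) : ∃ κ : ℝ, 0 < κ ∧ κ ≤ 1 ∧ ∀ q : ℕ, 1 ≤ q →
    ∃ X₀ : ℝ, ∀ V : El → Prop, Per q V → ∀ X : ℝ, X₀ ≤ X → ∀ k : ℤ, k ≠ 0 → |(k : ℝ)| ≤ X ^ 2 →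
      ‖∑ v ∈ PS A q V X, ex (k * A.u v)‖ ≤ X ^ (1 - κ) := sorry

/-- sparse sets of frequencies (expand the square) -/
theorem sparse {b c : ℤ} (A : Ang b c) : ∃ κ : ℝ, 0 < κ ∧ κ ≤ 1 ∧ ∀ q : ℕ, 1 ≤ q →
    ∃ X₀ : ℝ, 1 ≤ X₀ ∧
    ∀ V : El → Prop, Per q V → ∀ X : ℝ, X₀ ≤ X → ∀ U : Finset ℤ, U ⊆ Ks (X ^ 2 / 2) →
    ∀ a : ℤ → ℂ, ∑ v ∈ PS A q V X, ‖∑ k ∈ U, a k * ex (k * A.u v)‖ ^ 2 ≤
      ((PS A q V X).card + U.card * X ^ (1 - κ)) * ∑ k ∈ U, ‖a k‖ ^ 2 := sorry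

/-! ## block EL: character sums over ideals -/

open Classical in
/-- Thue: `δ` with `d ∣ dt δ r`, `nm δ = k d`, `1 ≤ k ≤ C₀` (if the norm is negative multiply by
`(-b, 2)`, norm `-D`); `M₁ = C₀!`. `v ↦ w = S.rp (conj δ v / d)` is a bijection onto the
`w ∈ MF (k X / d)` with `dv k (ml b c δ w)`. -/
theorem exp_line : ∃ κ : ℝ, 0 < κ ∧ κ ≤ 1 ∧ ∀ (b c : ℤ) (S : Sys b c), ¬ IsSquare (dsc b c) →
    ∃ (M₁ : ℕ) (C X₀ : ℝ), 1 ≤ M₁ ∧ 1 ≤ C ∧ 1 ≤ X₀ ∧ ∀ (d : ℕ) (r : El), Squarefree d →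
    Nat.Coprime d M₁ → (d : ℤ) ∣ nm b c r → (∀ l : ℕ, l.Prime → l ∣ d → ¬ dv l r) →
    ∀ X : ℝ, X₀ ≤ X / d → ∀ k : ℤ, k ≠ 0 → |(k : ℝ)| ≤ (X / d) ^ 3 →
      ‖∑ v ∈ (S.MF X).filter (fun v => (d : ℤ) ∣ dt v r), ex (k * S.u v)‖ ≤
        C * (X / d) ^ (1 - κ) := sorry

/-! ## block SM: the mass of the sieve of the split primes (template T2F/SLG.lean) -/

open Classical in
/-- `∑_{v ∈ MF R} 1 / nm v ≥ c log R`; the number of primitive `v ∈ MF` of norm `n` is at most `C`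
times the number of roots of `t² + b t + c` modulo `n` (MQX/REP.lean); the sum over the non-squarefree,
ramified, inert parts and the primes of `M` converges. Alternative: the template with
`χ₄` replaced by the Kronecker symbol. -/
theorem split_mass (b c : ℤ) (hs : ¬ IsSquare (dsc b c)) (M : ℕ) (hM : 1 ≤ M) : ∃ c₁ R₀ : ℝ,
    0 < c₁ ∧ ∀ R : ℝ, R₀ ≤ R → c₁ * Real.log R ≤
    ∑ d ∈ (Finset.Icc 1 ⌊R⌋₊).filter (fun d : ℕ => Squarefree d ∧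
      ∀ p : ℕ, p.Prime → p ∣ d → Spl b c p ∧ ¬ p ∣ M), ∏ p ∈ d.primeFactors,
        (2 / (p : ℝ) - 1 / (p : ℝ) ^ 2) / (1 - (2 / (p : ℝ) - 1 / (p : ℝ) ^ 2)) := sorry

/-! ## block MJ1: sums over `d ∣ nm z` (template T2F/PHM.lean, `phm_expand`, `phm_divsum`) -/

open Classical in
/-- For a split prime `l` with the lines `r`, `r'`: `[l ∣ nm z] = [l ∣ dt z r] + [l ∣ dt z r'] - [dv l z]`;
multiply over `l ∣ d`: `3^ω(d)` terms, each with a content `e` (`z = sm e z'`) and a line modulo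
`d'`, `e d' ∣ d`; `cls_count` (`q = 1`), `exp_line`. -/
theorem div_sums {b c : ℤ} (S : Sys b c) (hs : ¬ IsSquare (dsc b c)) : ∃ (κ₀ κ C X₀ : ℝ)
    (M₁ : ℕ), 0 < κ₀ ∧ 0 < κ ∧ κ ≤ 1 ∧ 1 ≤ C ∧ 1 ≤ X₀ ∧ 1 ≤ M₁ ∧ ∀ d : ℕ, Squarefree d →
    (∀ p : ℕ, p.Prime → p ∣ d → Spl b c p ∧ ¬ p ∣ M₁) → ∀ x : ℝ, X₀ ≤ x / (d : ℝ) ^ 2 →
    |(((S.MF x).filter (fun z => (d : ℤ) ∣ nm b c z)).card : ℝ) -
      κ₀ * x * ∏ l ∈ d.primeFactors, (2 / (l : ℝ) - 1 / (l : ℝ) ^ 2)| ≤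
        C * 3 ^ d.primeFactors.card * Real.sqrt x ∧
    ∀ k : ℤ, k ≠ 0 → |(k : ℝ)| ≤ (x / (d : ℝ) ^ 2) ^ 3 →
      ‖∑ z ∈ (S.MF x).filter (fun z => (d : ℤ) ∣ nm b c z), ex (k * S.u z)‖ ≤
        C * 3 ^ d.primeFactors.card * x ^ (1 - κ) := sorry

/-! ## block MJ2: the majorant of the prime elements (template T2F/PHM.lean, `phm_majorant`) -/

/-- Selberg's weights (T2F/SLW.lean) for the split primes `≤ R = P^(κ/40)` which do not divide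
`M M₁` (`M₁` of `div_sums`), applied to `nm z`, `z ∈ MF (2 M P)`; `split_mass`. (`d ≤ R²`, so
`(2 M P / d²)³ ≥ 2 X`, as `X ≤ P^(14/5)`.) -/
theorem majorant {b c : ℤ} (S : Sys b c) (hs : ¬ IsSquare (dsc b c)) (M : ℕ) (hM : 1 ≤ M) :
    ∃ κ C X₀ : ℝ, 0 < κ ∧ κ ≤ 1 / 4 ∧ 1 ≤ C ∧ 1 ≤ X₀ ∧ ∀ X : ℝ, X₀ ≤ X → ∀ P : ℝ,
    X ^ (5 / 14 : ℝ) ≤ P → P ≤ X → ∃ w : El → ℝ, (∀ z ∈ S.MF (2 * M * P), 0 ≤ w z) ∧
      (∀ (z : El) (k p : ℕ), p.Prime → P < (p : ℝ) → 1 ≤ k → k ∣ M → nm b c z = k * p →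
        w z = 1) ∧ ∑ z ∈ S.MF (2 * M * P), w z ≤ C * (P / Real.log P) ∧
      ∀ j : ℤ, j ≠ 0 → |(j : ℝ)| ≤ 2 * X →
        ‖∑ z ∈ S.MF (2 * M * P), (w z : ℂ) * ex (j * S.u z)‖ ≤ C * P ^ (1 - 3 * κ / 4) := sorry

/-! ## block PH: Halasz and Montgomery for prime elements (template T2F/PHM.lean, `prime_hm`) -/

theorem prime_hm {b c : ℤ} (S : Sys b c) (hs : ¬ IsSquare (dsc b c)) (M : ℕ) (hM : 1 ≤ M) :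
    ∃ α C X₀ : ℝ, 0 < α ∧ 1 ≤ C ∧ ∀ X : ℝ, X₀ ≤ X → ∀ U : Finset ℤ, U ⊆ Ks X →
    (U.card : ℝ) ≤ X ^ α → ∀ P : ℝ, X ^ (5 / 14 : ℝ) ≤ P → P ≤ X → ∀ (B : Finset ℕ) (k₀ : ℕ)
    (π : ℕ → El), 1 ≤ k₀ → k₀ ∣ M → (∀ p ∈ B, p.Prime ∧ P < (p : ℝ) ∧ (p : ℝ) ≤ 2 * P ∧
      S.wd (π p) ∧ nm b c (π p) = k₀ * p) → ∀ β : ℕ → ℂ, (∀ p, ‖β p‖ ≤ 1) →
      ∑ k ∈ U, ‖∑ p ∈ B, β p * ex (k * S.u (π p))‖ ^ 2 ≤ C * (P / Real.log P) * B.card := sorry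

/-! ## the end -/

section
variable {b c : ℤ} (A : Ang b c) (hs : ¬ IsSquare (dsc b c)) {M : ℕ} {T : El → Prop}

/-! ## block FC: the Fejer mean at the elements -/

/-- `K = N / √H`, `η = H^(3/4) / N`: the elements within `η` of a jump (`u_sep`: at most
`2 η N / δ + 1` for each jump), the exceptional ones, and `MQ.fejer` for the others. -/
theorem fm_close (hT : Cls A M T) : ∃ C : ℝ, 1 ≤ C ∧ ∀ h : ℕ → ℤ, Sgn h → ∀ (N H ε : ℝ)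
    (F : ℝ → ℝ), 16 ≤ H → H ≤ N → 0 ≤ ε → LocH A h M T N H ε F →
      ∑ m ∈ PS A M T N, ‖Fm F (N / Real.sqrt H) (A.u m) - gg b c h m‖ ≤
        C * (ε + H ^ (-(1 / 4) : ℝ)) * N := sorry

include hs

/-! ## block E1: the mass lives on a sparse set -/

/-- `∑_m g(m) Fm(u m) ≥ (1 - ε') #` (`fm_close`, `PS_low`); the frequencies outside `U`
(`mr_typical`, `N / √H ≤ N / H'`) contribute `≤ √ε'' N` by Cauchy-Schwarz; `sparse`. -/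
theorem mass_sparse (hT : Cls A M T) (hM : GoodM A M) (α ε₁ : ℝ) (hα : 0 < α) (hε₁ : 0 < ε₁) :
    ∃ ε H N₀ : ℝ, 0 < ε ∧ 16 ≤ H ∧ ∀ N : ℝ, N₀ ≤ N → ∀ h : ℕ → ℤ, Sgn h → ∀ F : ℝ → ℝ,
      LocH A h M T N H ε F → ∃ U : Finset ℤ, U ⊆ Ks N ∧ (U.card : ℝ) ≤ N ^ α ∧
        1 - ε₁ ≤ ∑ k ∈ U, ‖fc F k‖ ^ 2 := sorry

/-! ## block E2A: products of typed primes and elements -/

omit hs in
/-- `m` with `sm k₀ m = A.rp (ml b c v w)` -/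
theorem mq_exists (hT : Cls A M T) {B : Finset ℕ} {k₀ : ℕ} {r : El} {π : ℕ → El}
    (hB : TP A M B k₀ r π) {p : ℕ} (hp : p ∈ B) {w : El} (hw : A.wd w) (hq : QC b c k₀ r T w) :
    ∃ m : El, A.rp (ml b c (π p) w) = sm k₀ m ∧ A.wd m ∧ T m ∧
      (k₀ : ℤ) * nm b c m = p * nm b c w ∧ (∀ h : ℕ → ℤ, Sgn h →
        gg b c h m = gg b c h (π p) * gg b c h w) ∧
      (∀ k : ℤ, ex (k * A.u m) = ex (k * A.u (π p)) * ex (k * A.u w)) ∧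
      ((∀ l : ℕ, l.Prime → dv l w → l ∣ M * k₀) → ¬ Dv p (cj b (π p)) w → Pm m) := sorry

end

section
variable {b c : ℤ} (A : Ang b c) {M : ℕ} {T : El → Prop}

open Classical in
/-- every `m` has at most two representations (`p > N^(1/3)` divides its norm, `rp_inj`) -/
theorem pairs_le (hT : Cls A M T) {N : ℝ} (hN : 1 ≤ N) {I : Finset ℕ} {B : ℕ → Finset ℕ}
    {k₀ : ℕ → ℕ} {r : ℕ → El} {π : ℕ → ℕ → El} (hB : Blks A M N I B k₀ r π)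
    (f : El → ℝ) (hf : ∀ m, 0 ≤ f m) (G : ℕ → ℕ → El → ℝ)
    (hG : ∀ v ∈ I, ∀ p ∈ B v, ∀ w ∈ Wv A M T (k₀ v) (r v) v N, ∀ m : El,
      A.rp (ml b c (π v p) w) = sm (k₀ v) m → G v p w ≤ f m) :
    ∑ v ∈ I, ∑ p ∈ B v, ∑ w ∈ (Wv A M T (k₀ v) (r v) v N).filter (fun w =>
      ¬ Dv p (cj b (π v p)) w), G v p w ≤ 2 * ∑ m ∈ PS A M T N, f m := sorry

open Classical in
theorem bad_pairs (hT : Cls A M T) : ∃ C : ℝ, 1 ≤ C ∧ ∀ (N : ℝ), 1 ≤ N → ∀ (I : Finset ℕ)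
    (B : ℕ → Finset ℕ) (k₀ : ℕ → ℕ) (r : ℕ → El) (π : ℕ → ℕ → El), Blks A M N I B k₀ r π →
    ∑ v ∈ I, ∑ p ∈ B v, (((Wv A M T (k₀ v) (r v) v N).filter (fun w =>
      Dv p (cj b (π v p)) w)).card : ℝ) ≤ C * N ^ (16 / 25 : ℝ) := sorry

/-! ## block E2B: enough triples -/

/-- `typed_block` with `P = 2^v`, `PS_low`, `QC_nonempty` -/
theorem triples (hT : Cls A M T) (hM : GoodM A M) : ∃ c₁ c₂ N₀ : ℝ, 0 < c₁ ∧ 0 < c₂ ∧ 2 ≤ N₀ ∧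
    ∀ N : ℝ, N₀ ≤ N → ∃ (I : Finset ℕ) (B : ℕ → Finset ℕ) (k₀ : ℕ → ℕ) (r : ℕ → El)
    (π : ℕ → ℕ → El), Blks A M N I B k₀ r π ∧
      (∀ v ∈ I, c₁ * ((2 : ℝ) ^ v / Real.log (2 ^ v)) ≤ ((B v).card : ℝ)) ∧
      (∀ v ∈ I, c₂ * (N / 2 ^ v) ≤ ((Wv A M T (k₀ v) (r v) v N).card : ℝ)) ∧
      c₂ * N ≤ ∑ v ∈ I, ((B v).card : ℝ) * (Wv A M T (k₀ v) (r v) v N).card := sorry

end

section
variable {b c : ℤ} (A : Ang b c) (hs : ¬ IsSquare (dsc b c)) {M : ℕ} {T : El → Prop}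
include hs

/-! ## block E2C: the bilinear step -/

/-- `U` from `mass_sparse`, the blocks from `triples`. For a triple `(v, p, w)` let `m` be the element of
`mq_exists`. `∑_{triples} g(π p) g(w) Fm(u m) ≥ (1 - ε') #triples` (`fm_close`, `pairs_le` with
`f m = ‖Fm(u m) - g(m)‖`, `bad_pairs`). The frequencies outside `U` contribute at most
`2 ∑_m ‖Fm_{U^c}(u m)‖ ≤ C N √ε'` (`pairs_le`, Cauchy-Schwarz, `lsieve` second part), on the bad pairs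
`‖Fm_{U^c}‖ ≤ 1 + √#U`. Hence for one `v`: `‖∑_{p, w} g(π p) g(w) Fm_U‖ ≥ (1 - ε'') #B #W`, the left
side is `≤ √#W (∑_w ‖∑_{k ∈ U} a_k Q_k ex(k u w)‖²)^(1/2)`, and `sparse` for `W`
(`N ≤ x² / 2`, `x = k₀ N / 2^(v+1) ≥ N^(3/5) / 2`). -/
theorem bilin (hT : Cls A M T) (hM : GoodM A M) : ∃ c₁ : ℝ, 0 < c₁ ∧ ∀ ε₂ : ℝ, 0 < ε₂ →
    ∃ ε H N₀ : ℝ, 0 < ε ∧ 16 ≤ H ∧ ∀ N : ℝ, N₀ ≤ N → ∀ h : ℕ → ℤ, Sgn h → ∀ F : ℝ → ℝ,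
      LocH A h M T N H ε F → ∃ (U : Finset ℤ) (P : ℝ) (B : Finset ℕ) (k₀ : ℕ) (r : El)
        (π : ℕ → El), U ⊆ Ks N ∧ N ^ (9 / 25 : ℝ) ≤ P ∧ P ≤ N ^ (2 / 5 : ℝ) ∧ TP A M B k₀ r π ∧
        (∀ p ∈ B, P < (p : ℝ) ∧ (p : ℝ) ≤ 2 * P) ∧ c₁ * (P / Real.log P) ≤ (B.card : ℝ) ∧
        (1 - ε₂) * (B.card : ℝ) ^ 2 ≤ ∑ k ∈ U, ‖fc F k‖ ^ 2 * ‖Qv A h π k B‖ ^ 2 := sorry

/-! ## block E3: one frequency -/

/-- Two different frequencies `k, k'` with `‖Qv‖² ≥ (1 - ε') #B²`: for `l = k - k'` and `1 ≤ j ≤ J`,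
`‖∑_{p ∈ B} ex (j l u (π p))‖ ≥ (1 - 3 j √ε') #B`, against `prime_hm` (for `A.S`, `A.S.rp (π p)`, `A.u_S`; frequencies `j l`, the exponents are `A.mu j l`)
(`X = 2 J N`, `J = J(C, c₁)`). So one frequency `k₁` carries `1 - ε₃`; `‖fc F (-k₁)‖ = ‖fc F k₁‖`
(`F` real) and Parseval give `k₁ = 0`. -/
theorem one_freq (hT : Cls A M T) (hM : GoodM A M) (ε₃ : ℝ) (hε₃ : 0 < ε₃) : ∃ ε H N₀ : ℝ,
    0 < ε ∧ 16 ≤ H ∧ ∀ N : ℝ, N₀ ≤ N → ∀ h : ℕ → ℤ, Sgn h → ∀ F : ℝ → ℝ,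
      LocH A h M T N H ε F → 1 - ε₃ ≤ ‖fc F 0‖ ^ 2 := sorry

/-! ## block E4: constant, and the end -/

open Classical in
/-- `∑_m ‖Fm(u m) - fc F 0‖² ≤ C N ε₃` (`lsieve`, second part; `PS A M T N ⊆ PF A N`), `fm_close`. -/
theorem const_most (hT : Cls A M T) (hM : GoodM A M) (ε₄ : ℝ) (hε₄ : 0 < ε₄) : ∃ ε H N₀ : ℝ,
    0 < ε ∧ 16 ≤ H ∧ ∀ N : ℝ, N₀ ≤ N → ∀ h : ℕ → ℤ, Sgn h → ∀ F : ℝ → ℝ,
      LocH A h M T N H ε F → ∃ σ : ℤ, (σ = 1 ∨ σ = -1) ∧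
        (((PS A M T N).filter (fun m => gg b c h m ≠ σ)).card : ℝ) ≤ ε₄ * N := sorry

/-- `m ↦ A.rp (ml b c s₀ m)` for `m ∈ PS A (M n₀) V (N / n₀)`, `n₀ = nm s₀`, `V m`: `T m` and
`gcd (nm m, n₀) = 1`. -/
theorem part_two_M (hT : Cls A M T) (hM : GoodM A M) (s₀ : El) (hs₀ : T s₀) (hp : Pm s₀)
    (hn : 0 < nm b c s₀) : ∃ ε H N₀ : ℝ, 0 < ε ∧ 16 ≤ H ∧ ∀ N : ℝ, N₀ ≤ N → ∀ h : ℕ → ℤ,
      Sgn h → gg b c h s₀ = -1 → ∀ F : ℝ → ℝ, ¬ LocH A h M T N H ε F := sorry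

end

/-- `good_exists`, `part_two_M` -/
theorem part_two {b c : ℤ} (hs : ¬ IsSquare (dsc b c)) : ∃ M₀ : ℕ, 1 ≤ M₀ ∧ ∀ M : ℕ, 1 ≤ M →
    M₀ ∣ M → ∀ A : Ang b c, ∀ T : El → Prop, Cls A M T → ∀ s₀ : El, T s₀ → Pm s₀ →
    0 < nm b c s₀ → ∃ ε H N₀ : ℝ, 0 < ε ∧ 16 ≤ H ∧ ∀ N : ℝ, N₀ ≤ N → ∀ h : ℕ → ℤ, Sgn h →
      gg b c h s₀ = -1 → ∀ F : ℝ → ℝ, ¬ LocH A h M T N H ε F := sorry

end Pool.Agent.AQM
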